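import Pool.Agent.R317.KSeq

set_option autoImplicit false

/-!
# A `K`-sequence of lower degree at least `3` no term of which is divisible by `11`
-/

namespace Pool.Agent.Results.MP_3fd052_nt.NotDivisible

/-- the lower degree of `K = (k n)`: the infimum, in `ℕ ∪ {∞}`, of the `d ≥ 1` that are the difference
`k n - k (n - 1)` for infinitely many `n ≥ 1` -/
noncomputable def lowerDeg (k : ℕ → ℕ) : ℕ∞ :=
  sInf {x : ℕ∞ | ∃ d : ℕ, 1 ≤ d ∧ {n : ℕ | 1 ≤ n ∧ k n - k (n - 1) = d}.Infinite ∧ x = (d : ℕ∞)}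

/-- `b` is a `K`-sequence for `K = (k n)` -/
def IsKSeq (k : ℕ → ℕ) (b : ℕ → ℤ) : Prop :=
  (∀ n m, k n ≤ m → m < k (n + 1) → b m = b (k n)) ∧
    ∀ n, 1 ≤ n → b (k n) - b (k (n - 1)) = b n

theorem result :
    ∃ (k : ℕ → ℕ) (b : ℕ → ℤ), k 0 = 0 ∧ StrictMono k ∧ 3 ≤ lowerDeg k ∧
      (∀ n, k n + 3 ≤ k (n + 1) ∧ k (n + 1) ≤ k n + 6) ∧ IsKSeq k b ∧ ∀ n, ¬ (11 : ℤ) ∣ b n := by
  obtain ⟨h0, h1, h2, h3, h4⟩ := Pool.Agent.R317.KSeq.main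
  refine ⟨_, _, h0, strictMono_nat_of_lt_succ fun n => ?_, ?_, h1, ⟨h2, h3⟩, h4⟩
  · have := (h1 n).1
    omega
  · refine le_sInf ?_
    rintro x ⟨d, hd, hinf, rfl⟩
    obtain ⟨n, hn, hnd⟩ := hinf.nonempty
    have := (h1 (n - 1)).1
    rw [show n - 1 + 1 = n by omega] at this
    have h3d : 3 ≤ d := by omega
    exact_mod_cast h3d

end Pool.Agent.Results.MP_3fd052_nt.NotDivisible
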